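import Pool.Agent.Helper20.SW.Cone

/-!
# MP_47cd0b, rank four, dense case: counting lemmas on a cone
-/

set_option autoImplicit false

namespace Pool.Agent.Helper43.RF

open Finset Classical H20SW

variable {Y U E G P R : Type} [Fintype Y] [Fintype U] [Fintype E] (C : Cone Y U E G P R)

/-- The lines through a point with at least `k` points of `Q1`. -/
theorem lines_pt (Q1 : Finset Y) (k : ℕ) (y : Y) :
    (univ.filter (fun l => C.on y l ∧ k ≤ (Q1.filter (fun x => C.on x l)).card)).card * (k - 1) ≤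
      Q1.card := by
  set T := univ.filter (fun l => C.on y l ∧ k ≤ (Q1.filter (fun x => C.on x l)).card) with hT
  have h1 : ∀ l ∈ T, k - 1 ≤ ((Q1.erase y).filter (fun x => C.on x l)).card := by
    intro l hl
    have h2 := (Finset.mem_filter.mp hl).2.2
    have h3 : (Q1.erase y).filter (fun x => C.on x l) = (Q1.filter (fun x => C.on x l)).erase y := by
      ext x
      simp only [Finset.mem_filter, Finset.mem_erase]
      tauto
    rw [h3]
    have h4 := Finset.pred_card_le_card_erase (s := Q1.filter (fun x => C.on x l)) (a := y)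
    omega
  have h2 : ∀ l ∈ T, ∀ m ∈ T, l ≠ m → Disjoint ((Q1.erase y).filter (fun x => C.on x l))
      ((Q1.erase y).filter (fun x => C.on x m)) := by
    intro l hl m hm hlm
    rw [Finset.disjoint_left]
    intro x hx hx'
    rw [Finset.mem_filter, Finset.mem_erase] at hx hx'
    exact hlm (C.uniq x y l m hx.1.1 hx.2 (Finset.mem_filter.mp hl).2.1 hx'.2
      (Finset.mem_filter.mp hm).2.1)
  calc T.card * (k - 1) = ∑ _l ∈ T, (k - 1) := by rw [Finset.sum_const, smul_eq_mul]
    _ ≤ ∑ l ∈ T, ((Q1.erase y).filter (fun x => C.on x l)).card := Finset.sum_le_sum h1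
    _ = (T.biUnion (fun l => (Q1.erase y).filter (fun x => C.on x l))).card :=
        (Finset.card_biUnion h2).symm
    _ ≤ Q1.card := by
        refine Finset.card_le_card ?_
        intro x hx
        obtain ⟨l, -, hx'⟩ := Finset.mem_biUnion.mp hx
        exact Finset.mem_of_mem_erase (Finset.mem_filter.mp hx').1

/-- The lines with at least `k` points of `Q1`. -/
theorem lines_all (Q1 : Finset Y) (k : ℕ) :
    (univ.filter (fun l => k ≤ (Q1.filter (fun x => C.on x l)).card)).card * (k * (k - 1)) ≤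
      Q1.card * (Q1.card - 1) := by
  set T := univ.filter (fun l => k ≤ (Q1.filter (fun x => C.on x l)).card) with hT
  have hoff : ∀ s : Finset Y, s.offDiag.card = s.card * (s.card - 1) := fun s => by
    rw [Finset.offDiag_card, Nat.mul_sub, mul_one]
  have h1 : ∀ l ∈ T, k * (k - 1) ≤ ((Q1.filter (fun x => C.on x l)).offDiag).card := by
    intro l hl
    have h2 := (Finset.mem_filter.mp hl).2
    rw [hoff]
    exact Nat.mul_le_mul h2 (by omega)
  have h2 : ∀ l ∈ T, ∀ m ∈ T, l ≠ m → Disjoint ((Q1.filter (fun x => C.on x l)).offDiag)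
      ((Q1.filter (fun x => C.on x m)).offDiag) := by
    intro l hl m hm hlm
    rw [Finset.disjoint_left]
    rintro ⟨x, y⟩ hx hx'
    rw [Finset.mem_offDiag, Finset.mem_filter, Finset.mem_filter] at hx hx'
    exact hlm (C.uniq x y l m hx.2.2 hx.1.2 hx.2.1.2 hx'.1.2 hx'.2.1.2)
  calc T.card * (k * (k - 1)) = ∑ _l ∈ T, (k * (k - 1)) := by rw [Finset.sum_const, smul_eq_mul]
    _ ≤ ∑ l ∈ T, ((Q1.filter (fun x => C.on x l)).offDiag).card := Finset.sum_le_sum h1
    _ = (T.biUnion (fun l => (Q1.filter (fun x => C.on x l)).offDiag)).card :=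
        (Finset.card_biUnion h2).symm
    _ ≤ Q1.offDiag.card := by
        refine Finset.card_le_card ?_
        intro x hx
        obtain ⟨l, -, hx'⟩ := Finset.mem_biUnion.mp hx
        rw [Finset.mem_offDiag] at hx' ⊢
        exact ⟨(Finset.mem_filter.mp hx'.1).1, (Finset.mem_filter.mp hx'.2.1).1, hx'.2.2⟩
    _ = Q1.card * (Q1.card - 1) := hoff Q1

/-- The fat lines through a point. -/
theorem fat_pt (p : ℕ) (y : Y) :
    (univ.filter (fun l => C.on y l ∧ p ≤ C.tl l)).card * (p - 1) ≤ Fintype.card Y :=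
  lines_pt C univ p y

/-- The fat lines through a point, with weights. -/
theorem fat_inv {p : ℕ} (hp : 2 ≤ p) (y : Y) :
    ∑ l ∈ univ.filter (fun l => C.on y l ∧ p ≤ C.tl l), (1 : ℝ) / C.tl l ≤
      (Fintype.card Y : ℝ) / (p * (p - 1)) := by
  have hp0 : (0 : ℝ) < p := by
    have : 0 < p := by omega
    exact_mod_cast this
  have hp1 : (0 : ℝ) < (p : ℝ) - 1 := by
    have : (2 : ℝ) ≤ p := by exact_mod_cast hp
    linarith
  have h1 : ((univ.filter (fun l => C.on y l ∧ p ≤ C.tl l)).card : ℝ) * ((p : ℝ) - 1) ≤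
      Fintype.card Y := by
    have h2 := fat_pt C p y
    have h3 : (((univ.filter (fun l => C.on y l ∧ p ≤ C.tl l)).card * (p - 1) : ℕ) : ℝ) ≤
        Fintype.card Y := by exact_mod_cast h2
    rw [Nat.cast_mul, Nat.cast_sub (by omega)] at h3
    simpa using h3
  calc ∑ l ∈ univ.filter (fun l => C.on y l ∧ p ≤ C.tl l), (1 : ℝ) / C.tl l
      ≤ ∑ _l ∈ univ.filter (fun l => C.on y l ∧ p ≤ C.tl l), (1 : ℝ) / p := by
        refine Finset.sum_le_sum fun l hl => ?_
        have h2 : (p : ℝ) ≤ C.tl l := by exact_mod_cast (Finset.mem_filter.mp hl).2.2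
        exact one_div_le_one_div_of_le hp0 h2
    _ = ((univ.filter (fun l => C.on y l ∧ p ≤ C.tl l)).card : ℝ) / p := by
        rw [Finset.sum_const, nsmul_eq_mul, mul_one_div]
    _ ≤ (Fintype.card Y : ℝ) / (p * (p - 1)) := by
        rw [div_le_div_iff₀ hp0 (mul_pos hp0 hp1)]
        nlinarith

theorem tl_lt {z : U} {l : E} (h : C.ok z l) : C.tl l < Fintype.card Y := by
  have h1 := C.card_pl z l h
  have h2 : 0 < (univ.filter fun w => C.pl w l = C.pl z l).card :=
    Finset.card_pos.mpr ⟨z, by simp⟩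
  unfold Cone.tl
  omega

/-- The users of a plane: the load with weights `1 / (N - t)`. -/
theorem pl_load {z : U} {l : E} (h : C.ok z l) :
    ∑ _w ∈ univ.filter (fun w => C.pl w l = C.pl z l),
      (1 : ℝ) / ((Fintype.card Y : ℝ) - C.tl l) ≤ 1 := by
  have h1 := C.card_pl z l h
  have h2 : ((univ.filter fun w => C.pl w l = C.pl z l).card : ℝ) + C.tl l ≤ Fintype.card Y := by
    unfold Cone.tl
    exact_mod_cast h1
  have h3 : (C.tl l : ℝ) < Fintype.card Y := by exact_mod_cast tl_lt C h
  rw [Finset.sum_const, nsmul_eq_mul, mul_one_div, div_le_one (by linarith)]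
  linarith

/-- The points of the pairs of a family. -/
noncomputable def pts (J : Finset E) (a b : E → Y) : Finset Y := J.image a ∪ J.image b

theorem card_pts (J : Finset E) (a b : E → Y) : (pts J a b).card ≤ 2 * J.card := by
  have h1 := Finset.card_union_le (J.image a) (J.image b)
  have h2 : (J.image a).card ≤ J.card := Finset.card_image_le
  have h3 : (J.image b).card ≤ J.card := Finset.card_image_le
  unfold pts
  omega

theorem mem_pts_a {J : Finset E} {a b : E → Y} {l : E} (h : l ∈ J) : a l ∈ pts J a b :=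
  Finset.mem_union_left _ (Finset.mem_image_of_mem _ h)

theorem mem_pts_b {J : Finset E} {a b : E → Y} {l : E} (h : l ∈ J) : b l ∈ pts J a b :=
  Finset.mem_union_right _ (Finset.mem_image_of_mem _ h)

/-- The broken lines: fat with fewer than half of `p` points off `Q1`; they have more than half of
`p` points in `Q1`. -/
theorem broken_half {Q1 : Finset Y} {p : ℕ} {l : E} (hl : p ≤ C.tl l)
    (hb : 2 * (univ.filter (fun y => C.on y l ∧ y ∉ Q1)).card < p) :
    p < 2 * (Q1.filter (fun x => C.on x l)).card := by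
  have h1 : C.tl l = (Q1.filter (fun x => C.on x l)).card +
      (univ.filter (fun y => C.on y l ∧ y ∉ Q1)).card := by
    unfold Cone.tl
    have h2 := Finset.card_filter_add_card_filter_not (s := univ.filter (fun y => C.on y l))
      (fun y => y ∈ Q1)
    rw [Finset.filter_filter, Finset.filter_filter] at h2
    rw [← h2]
    congr 2
    ext x
    simp [and_comm]
  omega

/-- The number of broken lines. -/
theorem broken_card {Q1 : Finset Y} {p : ℕ} (hp : 4 ≤ p) :
    (univ.filter (fun l => p ≤ C.tl l ∧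
      2 * (univ.filter (fun y => C.on y l ∧ y ∉ Q1)).card < p)).card * (p * (p - 2)) ≤
        4 * Q1.card * Q1.card := by
  have h1 := lines_all C Q1 (p / 2 + 1)
  have h2 : (univ.filter (fun l => p ≤ C.tl l ∧
      2 * (univ.filter (fun y => C.on y l ∧ y ∉ Q1)).card < p)) ⊆
      (univ.filter (fun l => p / 2 + 1 ≤ (Q1.filter (fun x => C.on x l)).card)) := by
    intro l hl
    rw [Finset.mem_filter] at hl ⊢
    have := broken_half C hl.2.1 hl.2.2
    exact ⟨Finset.mem_univ _, by omega⟩
  have h3 := Finset.card_le_card h2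
  have h4 : p * (p - 2) ≤ 4 * ((p / 2 + 1) * (p / 2 + 1 - 1)) := by
    have h5 : p ≤ 2 * (p / 2 + 1) := by omega
    have h6 : p - 2 ≤ 2 * (p / 2 + 1 - 1) := by omega
    calc p * (p - 2) ≤ (2 * (p / 2 + 1)) * (2 * (p / 2 + 1 - 1)) := Nat.mul_le_mul h5 h6
      _ = _ := by ring
  calc _ ≤ (univ.filter (fun l => p / 2 + 1 ≤ (Q1.filter (fun x => C.on x l)).card)).card *
        (4 * ((p / 2 + 1) * (p / 2 + 1 - 1))) := Nat.mul_le_mul h3 h4
    _ = 4 * ((univ.filter (fun l => p / 2 + 1 ≤ (Q1.filter (fun x => C.on x l)).card)).card *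
        ((p / 2 + 1) * (p / 2 + 1 - 1))) := by ring
    _ ≤ 4 * (Q1.card * (Q1.card - 1)) := Nat.mul_le_mul_left _ h1
    _ ≤ 4 * Q1.card * Q1.card := by
        rw [mul_assoc]
        exact Nat.mul_le_mul_left _ (Nat.mul_le_mul_left _ (by omega))

/-- The broken lines through a point. -/
theorem broken_pt {Q1 : Finset Y} {p : ℕ} (y : Y) :
    (univ.filter (fun l => C.on y l ∧ p ≤ C.tl l ∧
      2 * (univ.filter (fun y => C.on y l ∧ y ∉ Q1)).card < p)).card * (p / 2) ≤ Q1.card := by
  have h1 := lines_pt C Q1 (p / 2 + 1) y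
  have h2 : (univ.filter (fun l => C.on y l ∧ p ≤ C.tl l ∧
      2 * (univ.filter (fun y => C.on y l ∧ y ∉ Q1)).card < p)) ⊆
      (univ.filter (fun l => C.on y l ∧ p / 2 + 1 ≤ (Q1.filter (fun x => C.on x l)).card)) := by
    intro l hl
    rw [Finset.mem_filter] at hl ⊢
    have := broken_half C hl.2.2.1 hl.2.2.2
    exact ⟨Finset.mem_univ _, hl.2.1, by omega⟩
  have h3 := Finset.card_le_card h2
  rw [Nat.add_sub_cancel] at h1
  exact (Nat.mul_le_mul_right _ h3).trans h1

end Pool.Agent.Helper43.RF
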